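import Pool.Agent.Helper15.Mink.NecB

/-!
# Module M3 for MP_ae3a4d_gt: the segment inequality is necessary
-/

namespace Pool.Agent.Helper62.Mink

open MeasureTheory Metric Set
open scoped RealInnerProductSpace ContDiff NNReal Topology

namespace Nec

/-- second difference of the absolute value. -/
noncomputable def D (s b : ℝ) : ℝ := |s + b| + |s - b| - 2 * |s|

lemma D_eq (s b : ℝ) : D s b = 2 * max 0 (|b| - |s|) := by
  unfold D
  rcases abs_cases (s + b) with h1 | h1 <;> rcases abs_cases (s - b) with h2 | h2 <;>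
  rcases abs_cases s with h3 | h3 <;> rcases abs_cases b with h4 | h4 <;>
  rcases max_cases 0 (|b| - |s|) with h5 | h5 <;> linarith

lemma D_nonneg (s b : ℝ) : 0 ≤ D s b := by
  rw [D_eq]; exact mul_nonneg zero_le_two (le_max_left _ _)

lemma D_le (s b : ℝ) : D s b ≤ 2 * |b| := by
  rw [D_eq]
  have : max 0 (|b| - |s|) ≤ |b| := max_le (abs_nonneg _) (by linarith [abs_nonneg s])
  linarith

lemma D_zero {s b : ℝ} (h : |b| ≤ |s|) : D s b = 0 := by
  rw [D_eq, max_eq_left (by linarith), mul_zero]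

lemma D_scale {τ : ℝ} (hτ : 0 < τ) (s b : ℝ) : D (τ * s) (τ * b) = τ * D s b := by
  unfold D
  rw [← mul_add, ← mul_sub, abs_mul, abs_mul, abs_mul, abs_of_pos hτ]
  ring

lemma D_cont : Continuous (fun p : ℝ × ℝ => D p.1 p.2) := by
  unfold D; fun_prop

lemma D_integral (b : ℝ) : ∫ s, D s b = 2 * b ^ 2 := by
  have e1 : ∀ s, D s b = (fun s : ℝ => 2 * max 0 (|b| - s)) |s| := fun s => D_eq s b
  simp_rw [e1]
  rw [integral_comp_abs (f := fun s : ℝ => 2 * max 0 (|b| - s))]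
  have e2 : ∫ s in Ioi (0 : ℝ), 2 * max 0 (|b| - s) = ∫ s in (0 : ℝ)..|b|, 2 * (|b| - s) := by
    rw [intervalIntegral.integral_of_le (abs_nonneg b)]
    rw [setIntegral_eq_of_subset_of_forall_sdiff_eq_zero measurableSet_Ioi
      (s := Ioc 0 |b|) (fun x hx => hx.1)]
    · refine setIntegral_congr_fun measurableSet_Ioc fun x hx => ?_
      rw [max_eq_right (by linarith [hx.2])]
    · intro x hx
      have h1 : |b| < x := by
        by_contra h
        exact hx.2 ⟨hx.1, not_lt.1 h⟩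
      rw [max_eq_left (by linarith), mul_zero]
  rw [e2]
  have e3 : ∫ s in (0 : ℝ)..|b|, 2 * (|b| - s) = b ^ 2 := by
    rw [intervalIntegral.integral_const_mul, intervalIntegral.integral_sub
      (by simp) (by simp), intervalIntegral.integral_const, integral_id]
    simp only [smul_eq_mul, sub_zero]
    rw [← sq_abs b]
    ring
  rw [e3]

lemma integral_scale {m : ℕ} (G : ℝ × E m → ℝ) {τ : ℝ} (hτ : 0 < τ) :
    ∫ p, G p = τ * ∫ p : ℝ × E m, G (τ * p.1, p.2) := by
  have h1 := Real.smul_map_volume_mul_left hτ.ne'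
  have hme : MeasurableEmbedding (fun p : ℝ × E m => (τ * p.1, p.2)) := by
    have : (fun p : ℝ × E m => (τ * p.1, p.2))
      = ((Homeomorph.mulLeft₀ τ hτ.ne').prodCongr (Homeomorph.refl (E m))) := by
      ext p <;> simp
    rw [this]
    exact Homeomorph.measurableEmbedding _
  have h2 : (volume : Measure (ℝ × E m))
      = ENNReal.ofReal τ • Measure.map (fun p : ℝ × E m => (τ * p.1, p.2)) volume := by
    have h3 : Measure.map (fun p : ℝ × E m => (τ * p.1, p.2)) volume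
        = (Measure.map (τ * ·) (volume : Measure ℝ)).prod (volume : Measure (E m)) := by
      have := Measure.map_prod_map (volume : Measure ℝ) (volume : Measure (E m))
        (f := (τ * ·)) (g := id) (measurable_const_mul τ) measurable_id
      rw [Measure.map_id] at this
      rw [this, Measure.volume_eq_prod]
      rfl
    rw [h3, ← Measure.prod_smul_left]
    rw [abs_of_pos hτ] at h1
    rw [h1, Measure.volume_eq_prod]
  rw [h2, integral_smul_measure, hme.integral_map, ENNReal.toReal_ofReal hτ.le, smul_eq_mul]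
  rw [← h2]

/-- the inequality on the whole space, after scaling the first coordinate. -/
lemma space_ineq {k : ℕ} {f : ℝ → ℝ} (hf : ContinuousOn f (Icc (-1) 1))
    (H : ∀ h : E (k + 3) → ℝ, Sublinear h → ContDiffOn ℝ ∞ h {0}ᶜ →
      ∀ x y, conv h f (x + y) ≤ conv h f x + conv h f y)
    {c r : ℝ} (hcr : c ^ 2 + r ^ 2 = 1) {τ : ℝ} (hτ : 0 < τ) :
    0 ≤ ∫ p : ℝ × E (k + 2), D p.1 (p.2 0) *
      (ext f ((c * (τ * p.1) + r * p.2 0) / √((τ * p.1) ^ 2 + ‖p.2‖ ^ 2)) *
        wt (√((τ * p.1) ^ 2 + ‖p.2‖ ^ 2))) := by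
  set φ : E (k + 3) → ℝ := fun x => D (x 0) (τ * x 1) * ext f ((c * x 0 + r * x 1) / ‖x‖) with hφ
  have hhom : ∀ t : ℝ, 0 < t → ∀ x, x ≠ 0 → φ (t • x) = t ^ 1 * φ x := by
    intro t ht x hx
    have hx' : 0 < ‖x‖ := norm_pos_iff.2 hx
    simp only [hφ, PiLp.smul_apply, smul_eq_mul, norm_smul, Real.norm_eq_abs, abs_of_pos ht,
      pow_one]
    have e1 : (c * (t * x 0) + r * (t * x 1)) / (t * ‖x‖) = (c * x 0 + r * x 1) / ‖x‖ := by
      rw [show c * (t * x 0) + r * (t * x 1) = t * (c * x 0 + r * x 1) by ring,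
        mul_div_mul_left _ _ ht.ne']
    have e2 : D (t * x 0) (τ * (t * x 1)) = t * D (x 0) (τ * x 1) := by
      rw [← D_scale ht]; congr 1; ring
    rw [e1, e2]; ring
  have h1 := integral_polar (n := k + 3) (by omega) φ 1 wt hhom
  have h2 : 0 ≤ ∫ w : sphere (0 : E (k + 3)) 1, φ (w : E (k + 3))
      ∂(volume : Measure (E (k + 3))).toSphere := by
    refine (sphere_ineq hf H hcr τ).trans_eq ?_
    refine integral_congr_ae (Filter.Eventually.of_forall fun w => ?_)
    have hw : ‖(w : E (k + 3))‖ = 1 := by simp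
    simp only [hφ, hw, div_one]
    rfl
  have h3 : 0 ≤ ∫ x : E (k + 3), φ x * wt ‖x‖ := by
    rw [h1]
    exact mul_nonneg h2 (wt_integral_pos _).le
  rw [integral_consE, integral_scale _ hτ] at h3
  have h4 := nonneg_of_mul_nonneg_right h3 hτ
  have e : ∫ p : ℝ × E (k + 2), φ (consE (τ * p.1) p.2) * wt ‖consE (τ * p.1) p.2‖
      = τ * ∫ p : ℝ × E (k + 2), D p.1 (p.2 0) *
      (ext f ((c * (τ * p.1) + r * p.2 0) / √((τ * p.1) ^ 2 + ‖p.2‖ ^ 2)) *
        wt (√((τ * p.1) ^ 2 + ‖p.2‖ ^ 2))) := by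
    rw [← integral_const_mul]
    refine integral_congr_ae (Filter.Eventually.of_forall fun p => ?_)
    simp only [hφ, consE_zero, consE_one, norm_consE, D_scale hτ]
    ring
  have h5 : 0 ≤ ∫ p : ℝ × E (k + 2), φ (consE (τ * p.1) p.2) * wt ‖consE (τ * p.1) p.2‖ := h4
  rw [e] at h5
  exact nonneg_of_mul_nonneg_right h5 hτ

/-- the limit `τ → 0`. -/
lemma limit_ineq {k : ℕ} {f : ℝ → ℝ} (hf : ContinuousOn f (Icc (-1) 1))
    (H : ∀ h : E (k + 3) → ℝ, Sublinear h → ContDiffOn ℝ ∞ h {0}ᶜ →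
      ∀ x y, conv h f (x + y) ≤ conv h f x + conv h f y)
    {c r : ℝ} (hcr : c ^ 2 + r ^ 2 = 1) :
    0 ≤ ∫ y : E (k + 2), 2 * (y 0) ^ 2 * (ext f (r * y 0 / ‖y‖) * wt ‖y‖) := by
  obtain ⟨M, hM⟩ := ext_bdd hf
  have hM0 : 0 ≤ M := (abs_nonneg _).trans (hM 0)
  have hfc := ext_cont hf
  have hfm : Measurable (ext f) := hfc.measurable
  have hwm : Measurable wt := wt_cont.measurable
  set S : Set (ℝ × E (k + 2)) := Icc (-1 : ℝ) 1 ×ˢ closedBall (0 : E (k + 2)) 1 with hS
  have hSm : MeasurableSet S := measurableSet_Icc.prod measurableSet_closedBall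
  set bd : ℝ × E (k + 2) → ℝ := S.indicator (fun _ => 2 * M) with hbd
  have hbdI : Integrable bd := by
    rw [hbd, integrable_indicator_iff hSm]
    refine integrableOn_const ?_
    exact ((isCompact_Icc.prod (isCompact_closedBall _ _)).measure_lt_top).ne
  have hy0 : ∀ y : E (k + 2), |y 0| ≤ ‖y‖ := fun y => by
    have := PiLp.norm_apply_le y 0
    simpa using this
  set Φ : ℝ → ℝ × E (k + 2) → ℝ := fun τ p => D p.1 (p.2 0) *
      (ext f ((c * (τ * p.1) + r * p.2 0) / √((τ * p.1) ^ 2 + ‖p.2‖ ^ 2)) *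
        wt (√((τ * p.1) ^ 2 + ‖p.2‖ ^ 2))) with hΦ
  have hDm : Measurable (fun p : ℝ × E (k + 2) => D p.1 (p.2 0)) := by
    unfold D; fun_prop
  have hΦm : ∀ τ, Measurable (Φ τ) := by
    intro τ
    refine hDm.mul ?_
    fun_prop
  have hΦb : ∀ τ p, ‖Φ τ p‖ ≤ bd p := by
    intro τ p
    by_cases hp : p ∈ S
    · rw [hbd, indicator_of_mem hp, Real.norm_eq_abs]
      simp only [hΦ, abs_mul]
      have h2 : ‖p.2‖ ≤ 1 := by simpa using hp.2
      have h3 : |D p.1 (p.2 0)| ≤ 2 := by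
        rw [abs_of_nonneg (D_nonneg _ _)]
        have := D_le p.1 (p.2 0)
        linarith [hy0 p.2]
      have h4 : |wt (√((τ * p.1) ^ 2 + ‖p.2‖ ^ 2))| ≤ 1 := by
        rw [abs_of_nonneg (wt_nonneg _)]; exact wt_le (Real.sqrt_nonneg _)
      calc _ ≤ 2 * (M * 1) := by
            refine mul_le_mul h3 (mul_le_mul (hM _) h4 (abs_nonneg _) hM0)
              (mul_nonneg (abs_nonneg _) (abs_nonneg _)) zero_le_two
        _ = 2 * M := by ring
    · rw [hbd, indicator_of_notMem hp]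
      have : Φ τ p = 0 := by
        by_cases h2 : ‖p.2‖ ≤ 1
        · have h1 : 1 < |p.1| := by
            by_contra h
            exact hp ⟨abs_le.1 (not_lt.1 h), by simpa using h2⟩
          simp only [hΦ]
          rw [D_zero (by linarith [hy0 p.2]), zero_mul]
        · simp only [hΦ]
          rw [wt_zero, mul_zero, mul_zero]
          rw [Real.one_le_sqrt]
          have h3 : 1 < ‖p.2‖ := not_le.1 h2
          nlinarith [sq_nonneg (τ * p.1)]
      rw [this, norm_zero]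
  have hΦ0 : ∀ p, Φ 0 p = D p.1 (p.2 0) * (ext f (r * p.2 0 / ‖p.2‖) * wt ‖p.2‖) := by
    intro p
    simp only [hΦ, zero_mul, mul_zero, zero_add, ne_eq, OfNat.ofNat_ne_zero, not_false_eq_true,
      zero_pow, Real.sqrt_sq (norm_nonneg _)]
  have hlim : ∀ p, Filter.Tendsto (fun τ => Φ τ p) (𝓝[>] 0) (𝓝 (Φ 0 p)) := by
    intro p
    refine Filter.Tendsto.mono_left ?_ nhdsWithin_le_nhds
    by_cases hp : p.2 = 0
    · have : ∀ τ, Φ τ p = 0 := by
        intro τ
        simp only [hΦ, hp, PiLp.zero_apply]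
        rw [D_zero (by simp), zero_mul]
      simp only [this]
      exact tendsto_const_nhds
    · have hpos : 0 < ‖p.2‖ := norm_pos_iff.2 hp
      have hne : ∀ τ : ℝ, √((τ * p.1) ^ 2 + ‖p.2‖ ^ 2) ≠ 0 := fun τ =>
        (Real.sqrt_pos.2 (by positivity)).ne'
      have hwc := wt_cont
      have : Continuous (fun τ => Φ τ p) := by
        simp only [hΦ]
        refine continuous_const.mul ((hfc.comp (Continuous.div ?_ ?_ hne)).mul ?_)
        · fun_prop
        · fun_prop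
        · fun_prop
      exact this.tendsto 0
  have h0 : 0 ≤ ∫ p, Φ 0 p := by
    have := tendsto_integral_filter_of_dominated_convergence (l := 𝓝[>] (0 : ℝ)) (F := Φ)
      (f := Φ 0) bd (Filter.Eventually.of_forall fun τ => (hΦm τ).aestronglyMeasurable)
      (Filter.Eventually.of_forall fun τ => Filter.Eventually.of_forall fun p => hΦb τ p) hbdI
      (Filter.Eventually.of_forall hlim)
    refine ge_of_tendsto this ?_
    filter_upwards [self_mem_nhdsWithin] with τ hτ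
    exact space_ineq hf H hcr hτ
  have hI : Integrable (Φ 0) :=
    hbdI.mono' (hΦm 0).aestronglyMeasurable (Filter.Eventually.of_forall fun p => hΦb 0 p)
  rw [Measure.volume_eq_prod] at h0 hI
  rw [integral_prod_symm _ hI] at h0
  refine h0.trans_eq ?_
  refine integral_congr_ae (Filter.Eventually.of_forall fun y => ?_)
  simp only [hΦ0]
  rw [integral_mul_const, D_integral]

end Nec

open Nec in
theorem seg_nonneg_of_conv {n : ℕ} (hn : 3 ≤ n) {f : ℝ → ℝ} (hf : ContinuousOn f (Icc (-1) 1))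
    (H : ∀ h : E n → ℝ, Sublinear h → ContDiffOn ℝ ∞ h {0}ᶜ →
      ∀ x y, conv h f (x + y) ≤ conv h f x + conv h f y)
    {r : ℝ} (hr : r ∈ Icc (0 : ℝ) 1) :
    0 ≤ ∫ θ in (0 : ℝ)..Real.pi,
      f (r * Real.cos θ) * Real.cos θ ^ 2 * Real.sin θ ^ (n - 3) := by
  obtain ⟨k, rfl⟩ : ∃ k, n = k + 3 := ⟨n - 3, by omega⟩
  have hc : √(1 - r ^ 2) ^ 2 + r ^ 2 = 1 := by
    rw [Real.sq_sqrt (by nlinarith [hr.1, hr.2])]; ring
  obtain ⟨M, hM⟩ := ext_bdd hf
  have hM0 : 0 ≤ M := (abs_nonneg _).trans (hM 0)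
  have hfc := ext_cont hf
  have h0 := limit_ineq hf H hc
  set g : ℝ → ℝ := fun t => (max (-1) (min 1 t)) ^ 2 * ext f (r * t) with hg
  have hgc : Continuous g := by simp only [hg]; fun_prop
  have hgb : ∀ t, |g t| ≤ M := by
    intro t
    simp only [hg, abs_mul]
    have h1 := clamp_mem t
    have h2 : |max (-1 : ℝ) (min 1 t) ^ 2| ≤ 1 := by
      rw [abs_pow]; exact pow_le_one₀ (abs_nonneg _) (abs_le.2 h1)
    calc _ ≤ 1 * M := mul_le_mul h2 (hM _) (abs_nonneg _) zero_le_one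
      _ = M := one_mul _
  obtain ⟨C, hC, hz⟩ := zonal k hgc hgb
  have e1 : ∫ y : E (k + 2), 2 * (y 0) ^ 2 * (ext f (r * y 0 / ‖y‖) * wt ‖y‖)
      = 2 * ∫ p : ℝ × E (k + 1), g (p.1 / √(p.1 ^ 2 + ‖p.2‖ ^ 2)) *
          ((p.1 ^ 2 + ‖p.2‖ ^ 2) * wt (√(p.1 ^ 2 + ‖p.2‖ ^ 2))) := by
    rw [integral_consE, ← integral_const_mul]
    refine integral_congr_ae (Filter.Eventually.of_forall fun p => ?_)
    simp only [consE_zero, norm_consE]
    set N : ℝ := √(p.1 ^ 2 + ‖p.2‖ ^ 2) with hN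
    have hN2 : N ^ 2 = p.1 ^ 2 + ‖p.2‖ ^ 2 := Real.sq_sqrt (by positivity)
    rcases eq_or_ne N 0 with h | h
    · have h1 : p.1 ^ 2 = 0 := by
        rw [h] at hN2
        nlinarith [sq_nonneg p.1, sq_nonneg ‖p.2‖]
      have h2 : ‖p.2‖ ^ 2 = 0 := by
        rw [h] at hN2
        nlinarith [sq_nonneg p.1, sq_nonneg ‖p.2‖]
      rw [h1, h2]
      ring
    · have hNp : 0 < N := lt_of_le_of_ne (Real.sqrt_nonneg _) (Ne.symm h)
      have h1 : p.1 / N ∈ Icc (-1 : ℝ) 1 := by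
        rw [mem_Icc, ← abs_le, abs_div, abs_of_pos hNp, div_le_one hNp, hN]
        refine Real.abs_le_sqrt ?_
        nlinarith [sq_nonneg ‖p.2‖]
      simp only [hg]
      rw [clamp_eq h1, ← hN2, mul_div_assoc]
      field_simp
  have e2 : ∫ θ in (0 : ℝ)..Real.pi, g (Real.cos θ) * Real.sin θ ^ k
      = ∫ θ in (0 : ℝ)..Real.pi, f (r * Real.cos θ) * Real.cos θ ^ 2 * Real.sin θ ^ (k + 3 - 3) := by
    refine intervalIntegral.integral_congr fun θ _ => ?_
    simp only [hg]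
    have h1 : Real.cos θ ∈ Icc (-1 : ℝ) 1 := Real.cos_mem_Icc θ
    have h2 : r * Real.cos θ ∈ Icc (-1 : ℝ) 1 := by
      rw [mem_Icc, ← abs_le, abs_mul, abs_of_nonneg hr.1]
      calc r * |Real.cos θ| ≤ 1 * 1 := mul_le_mul hr.2 (abs_le.2 h1) (abs_nonneg _) zero_le_one
        _ = 1 := one_mul _
    rw [clamp_eq h1, ext_eq h2, Nat.add_sub_cancel]
    ring
  rw [e1, hz, e2, ← mul_assoc] at h0
  exact nonneg_of_mul_nonneg_right h0 (by positivity)

end Pool.Agent.Helper62.Mink
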