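import Pool.Agent.Helper62.Mink.Basic

/-!
# Module M3 for MP_ae3a4d_gt, part A: splitting coordinates and zonal integration
-/

namespace Pool.Agent.Helper62.Mink

open MeasureTheory Metric Set
open scoped RealInnerProductSpace ContDiff NNReal

namespace Nec

/-- prepend a coordinate. -/
noncomputable def consE {m : ℕ} (b : ℝ) (z : E m) : E (m + 1) :=
  WithLp.toLp 2 (Fin.cons b (WithLp.ofLp z) : Fin (m + 1) → ℝ)

@[simp] lemma consE_zero {m : ℕ} (b : ℝ) (z : E m) : consE b z 0 = b := by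
  simp [consE]

@[simp] lemma consE_succ {m : ℕ} (b : ℝ) (z : E m) (i : Fin m) : consE b z i.succ = z i := by
  simp [consE]

@[simp] lemma consE_one {m : ℕ} (b : ℝ) (z : E (m + 1)) : consE b z 1 = z 0 :=
  consE_succ b z 0

lemma norm_consE {m : ℕ} (b : ℝ) (z : E m) : ‖consE b z‖ = √(b ^ 2 + ‖z‖ ^ 2) := by
  rw [EuclideanSpace.norm_eq, EuclideanSpace.norm_eq, Real.sq_sqrt (by positivity), Fin.sum_univ_succ]
  simp

lemma integral_consE {m : ℕ} (F : E (m + 1) → ℝ) :
    ∫ x, F x = ∫ p : ℝ × E m, F (consE p.1 p.2) := by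
  let e : ℝ × E m ≃ᵐ E (m + 1) :=
    ((MeasurableEquiv.refl ℝ).prodCongr (MeasurableEquiv.toLp 2 (Fin m → ℝ)).symm).trans
      ((MeasurableEquiv.piFinSuccAbove (fun _ => ℝ) 0).symm.trans (MeasurableEquiv.toLp 2 _))
  have he : MeasurePreserving e := by
    refine ((PiLp.volume_preserving_toLp (Fin (m + 1))).comp
      ((volume_preserving_piFinSuccAbove (fun _ : Fin (m + 1) => ℝ) 0).symm _)).comp
      ((MeasurePreserving.id volume).prod (PiLp.volume_preserving_ofLp (Fin m)))
  rw [← he.integral_comp']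
  refine integral_congr_ae (Filter.Eventually.of_forall fun p => ?_)
  have : e p = consE p.1 p.2 := by
    ext i
    refine Fin.cases ?_ (fun j => ?_) i
    · simp [e, consE, MeasurableEquiv.piFinSuccAbove, MeasurableEquiv.prodCongr]
    · simp [e, consE, MeasurableEquiv.piFinSuccAbove, MeasurableEquiv.prodCongr]
  simp [this]

/-- the radial weight. -/
noncomputable def wt (r : ℝ) : ℝ := max 0 (1 - r)

lemma wt_cont : Continuous wt := by unfold wt; fun_prop

lemma wt_nonneg (r : ℝ) : 0 ≤ wt r := le_max_left _ _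

lemma wt_le {r : ℝ} (hr : 0 ≤ r) : wt r ≤ 1 := by
  unfold wt; exact max_le zero_le_one (by linarith)

lemma wt_zero {r : ℝ} (hr : 1 ≤ r) : wt r = 0 := by
  unfold wt; exact max_eq_left (by linarith)

lemma wt_pos {r : ℝ} (hr : r < 1) : 0 < wt r := by
  unfold wt; exact lt_max_of_lt_right (by linarith)

lemma wt_integral_pos (j : ℕ) : 0 < ∫ r in Ioi (0 : ℝ), r ^ j * wt r := by
  have e : ∫ r in Ioi (0 : ℝ), r ^ j * wt r = ∫ r in (0 : ℝ)..1, r ^ j * wt r := by
    rw [intervalIntegral.integral_of_le zero_le_one]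
    refine (setIntegral_eq_of_subset_of_forall_sdiff_eq_zero measurableSet_Ioi
      (fun x hx => hx.1) fun x hx => ?_)
    have h1 : 1 < x := by
      by_contra h
      exact hx.2 ⟨hx.1, not_lt.1 h⟩
    rw [wt_zero h1.le, mul_zero]
  rw [e]
  exact intervalIntegral.intervalIntegral_pos_of_pos_on
    (Continuous.intervalIntegrable ((continuous_pow j).mul wt_cont) _ _)
    (fun x hx => mul_pos (pow_pos hx.1 _) (wt_pos hx.2)) (by norm_num)

lemma zonal (k : ℕ) {g : ℝ → ℝ} (hg : Continuous g) {M : ℝ} (hM : ∀ x, |g x| ≤ M) :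
    ∃ C : ℝ, 0 < C ∧
      ∫ p : ℝ × E (k + 1), g (p.1 / √(p.1 ^ 2 + ‖p.2‖ ^ 2)) *
          ((p.1 ^ 2 + ‖p.2‖ ^ 2) * wt (√(p.1 ^ 2 + ‖p.2‖ ^ 2)))
        = C * ∫ θ in (0 : ℝ)..Real.pi, g (Real.cos θ) * Real.sin θ ^ k := by
  have hM0 : 0 ≤ M := (abs_nonneg _).trans (hM 0)
  set F : ℝ → ℝ → ℝ := fun b t => g (b / √(b ^ 2 + t ^ 2)) *
    ((b ^ 2 + t ^ 2) * wt (√(b ^ 2 + t ^ 2))) with hF
  have hgm : Measurable g := hg.measurable
  have hwm : Measurable wt := wt_cont.measurable
  have hFm : Measurable (Function.uncurry F) := by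
    simp only [hF, Function.uncurry_def]
    fun_prop
  -- bounds
  have hFb : ∀ b t, |F b t| ≤ M := by
    intro b t
    simp only [hF, abs_mul]
    have h1 : |wt (√(b ^ 2 + t ^ 2))| = wt (√(b ^ 2 + t ^ 2)) := abs_of_nonneg (wt_nonneg _)
    have h2 : |b ^ 2 + t ^ 2| = b ^ 2 + t ^ 2 := abs_of_nonneg (by positivity)
    rw [h1, h2]
    rcases le_total 1 (√(b ^ 2 + t ^ 2)) with h | h
    · rw [wt_zero h]; simpa using hM0
    · have h3 : b ^ 2 + t ^ 2 ≤ 1 := by
        have := (Real.sqrt_le_iff.1 h).2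
        linarith
      have h4 := wt_le (Real.sqrt_nonneg (b ^ 2 + t ^ 2))
      have h5 : (b ^ 2 + t ^ 2) * wt (√(b ^ 2 + t ^ 2)) ≤ 1 * 1 :=
        mul_le_mul h3 h4 (wt_nonneg _) zero_le_one
      calc _ ≤ M * (1 * 1) := mul_le_mul (hM _) h5 (mul_nonneg (by positivity) (wt_nonneg _)) hM0
        _ = M := by ring
  have hF0 : ∀ b t, 1 < |b| ∨ 1 < |t| → F b t = 0 := by
    intro b t h
    have : 1 ≤ √(b ^ 2 + t ^ 2) := by
      rw [Real.one_le_sqrt]
      rcases h with h | h
      · have : 1 < b ^ 2 := by rw [← sq_abs]; nlinarith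
        nlinarith [sq_nonneg t]
      · have : 1 < t ^ 2 := by rw [← sq_abs]; nlinarith
        nlinarith [sq_nonneg b]
    simp only [hF, wt_zero this]; ring
  -- integrability on `ℝ × E`
  have hI1 : Integrable (fun p : ℝ × E (k + 1) => F p.1 ‖p.2‖) := by
    have hs : (Icc (-1 : ℝ) 1 ×ˢ closedBall (0 : E (k + 1)) 1).indicator
        (fun p : ℝ × E (k + 1) => F p.1 ‖p.2‖) = fun p : ℝ × E (k + 1) => F p.1 ‖p.2‖ := by
      refine indicator_eq_self.2 fun p hp => ?_
      by_contra hcon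
      refine hp (hF0 _ _ ?_)
      simp only [mem_prod, mem_Icc, mem_closedBall, dist_zero_right, not_and_or, not_le] at hcon
      rcases hcon with (h | h) | h
      · left; rw [lt_abs]; right; linarith
      · left; rw [lt_abs]; left; linarith
      · right; rw [abs_norm]; exact h
    rw [← hs, integrable_indicator_iff (measurableSet_Icc.prod measurableSet_closedBall)]
    refine Measure.integrableOn_of_bounded (M := M) ?_ ?_ ?_
    · exact ((isCompact_Icc.prod (isCompact_closedBall _ _)).measure_lt_top).ne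
    · exact (hFm.comp (measurable_fst.prodMk measurable_snd.norm)).aestronglyMeasurable
    · exact Filter.Eventually.of_forall fun p => hFb _ _
  -- integrability on `ℝ × ℝ`
  have hI2 : Integrable (fun p : ℝ × ℝ => F p.1 p.2 * p.2 ^ k) := by
    have hs : (Icc (-1 : ℝ) 1 ×ˢ Icc (-1 : ℝ) 1).indicator
        (fun p : ℝ × ℝ => F p.1 p.2 * p.2 ^ k) = fun p : ℝ × ℝ => F p.1 p.2 * p.2 ^ k := by
      refine indicator_eq_self.2 fun p hp => ?_
      by_contra hcon
      refine hp ?_
      simp only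
      rw [hF0 _ _, zero_mul]
      simp only [mem_prod, mem_Icc, not_and_or, not_le] at hcon
      rcases hcon with (h | h) | (h | h)
      · left; rw [lt_abs]; right; linarith
      · left; rw [lt_abs]; left; linarith
      · right; rw [lt_abs]; right; linarith
      · right; rw [lt_abs]; left; linarith
    rw [← hs, integrable_indicator_iff (measurableSet_Icc.prod measurableSet_Icc)]
    refine Measure.integrableOn_of_bounded (M := M) ?_ ?_ ?_
    · exact ((isCompact_Icc.prod isCompact_Icc).measure_lt_top).ne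
    · exact (hFm.mul (measurable_snd.pow_const k)).aestronglyMeasurable
    · refine (ae_restrict_mem (measurableSet_Icc.prod measurableSet_Icc)).mono fun p hp => ?_
      have h1 : |p.2| ≤ 1 := abs_le.2 hp.2
      rw [Real.norm_eq_abs, abs_mul, abs_pow]
      calc _ ≤ M * 1 := mul_le_mul (hFb _ _) (pow_le_one₀ (abs_nonneg _) h1) (by positivity) hM0
        _ = M := mul_one _
  -- radial integration in the last block
  set c : ℝ := (k + 1 : ℕ) * (volume : Measure (E (k + 1))).real (ball 0 1) with hc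
  have hc0 : 0 < c := by
    have h1 : 0 < (volume : Measure (E (k + 1))).real (ball 0 1) :=
      ENNReal.toReal_pos (isOpen_ball.measure_pos volume ⟨0, by simp⟩).ne' measure_ball_lt_top.ne
    have h2 : (0 : ℝ) < ((k + 1 : ℕ) : ℝ) := by positivity
    exact mul_pos h2 h1
  have hrad : ∀ b : ℝ, ∫ z : E (k + 1), F b ‖z‖ = c * ∫ t in Ioi (0 : ℝ), F b t * t ^ k := by
    intro b
    have := integral_fun_norm_addHaar (volume : Measure (E (k + 1))) (fun t => F b t)
    rw [this]
    simp only [finrank_euclideanSpace, Fintype.card_fin, Nat.add_sub_cancel, smul_eq_mul,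
      nsmul_eq_mul]
    rw [hc, mul_assoc]
    congr 2
    refine integral_congr_ae (Filter.Eventually.of_forall fun t => ?_)
    simp only; ring
  refine ⟨c * ∫ r in Ioi (0 : ℝ), r ^ (k + 3) * wt r, mul_pos hc0 (wt_integral_pos _), ?_⟩
  have step1 : ∫ p : ℝ × E (k + 1), F p.1 ‖p.2‖
      = c * ∫ p : ℝ × ℝ, (Ioi (0 : ℝ)).indicator (fun t => F p.1 t * t ^ k) p.2 := by
    rw [Measure.volume_eq_prod, integral_prod _ hI1, Measure.volume_eq_prod, integral_prod,
      ← integral_const_mul]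
    · refine integral_congr_ae (Filter.Eventually.of_forall fun b => ?_)
      simp only
      rw [hrad b, integral_indicator measurableSet_Ioi]
    · have : (fun p : ℝ × ℝ => (Ioi (0 : ℝ)).indicator (fun t => F p.1 t * t ^ k) p.2)
          = (univ ×ˢ Ioi (0 : ℝ)).indicator (fun p : ℝ × ℝ => F p.1 p.2 * p.2 ^ k) := by
        ext p
        by_cases hp : 0 < p.2
        · rw [indicator_of_mem (by exact hp), indicator_of_mem (by exact ⟨mem_univ _, hp⟩)]
        · rw [indicator_of_notMem (by exact hp), indicator_of_notMem (fun h => hp h.2)]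
      rw [this]
      exact hI2.indicator (MeasurableSet.univ.prod measurableSet_Ioi)
  have step2 : ∫ p : ℝ × ℝ, (Ioi (0 : ℝ)).indicator (fun t => F p.1 t * t ^ k) p.2
      = (∫ r in Ioi (0 : ℝ), r ^ (k + 3) * wt r) *
        ∫ θ in Ioo (-Real.pi) Real.pi,
          (Ioi (0 : ℝ)).indicator (fun t => g (Real.cos θ) * t ^ k) (Real.sin θ) := by
    rw [← integral_comp_polarCoord_symm, polarCoord_target, Measure.volume_eq_prod,
      ← Measure.prod_restrict, ← integral_prod_mul]
    rw [Measure.prod_restrict]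
    refine setIntegral_congr_fun (measurableSet_Ioi.prod measurableSet_Ioo) fun p hp => ?_
    have hp1 : 0 < p.1 := hp.1
    have e1 : (p.1 * Real.cos p.2) ^ 2 + (p.1 * Real.sin p.2) ^ 2 = p.1 ^ 2 := by
      rw [mul_pow, mul_pow, ← mul_add, Real.cos_sq_add_sin_sq, mul_one]
    simp only [polarCoord_symm_apply, smul_eq_mul]
    by_cases hs : 0 < Real.sin p.2
    · rw [indicator_of_mem (by exact mul_pos hp1 hs), indicator_of_mem (by exact hs)]
      simp only [hF, e1, Real.sqrt_sq hp1.le]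
      rw [mul_div_cancel_left₀ _ hp1.ne']
      ring
    · rw [indicator_of_notMem, indicator_of_notMem (by exact hs)]
      · ring
      · simp only [mem_Ioi, not_lt] at hs ⊢
        exact mul_nonpos_of_nonneg_of_nonpos hp1.le hs
  have step3 : ∫ θ in Ioo (-Real.pi) Real.pi,
          (Ioi (0 : ℝ)).indicator (fun t => g (Real.cos θ) * t ^ k) (Real.sin θ)
      = ∫ θ in (0 : ℝ)..Real.pi, g (Real.cos θ) * Real.sin θ ^ k := by
    rw [intervalIntegral.integral_of_le Real.pi_pos.le, integral_Ioc_eq_integral_Ioo]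
    have hsub : Ioo (0 : ℝ) Real.pi ⊆ Ioo (-Real.pi) Real.pi :=
      Ioo_subset_Ioo (by linarith [Real.pi_pos]) le_rfl
    rw [setIntegral_eq_of_subset_of_forall_sdiff_eq_zero measurableSet_Ioo hsub]
    · refine setIntegral_congr_fun measurableSet_Ioo fun θ hθ => ?_
      rw [indicator_of_mem (by exact Real.sin_pos_of_mem_Ioo hθ)]
    · intro θ hθ
      rw [indicator_of_notMem]
      simp only [mem_Ioi, not_lt]
      have h1 : θ ≤ 0 := by
        by_contra h
        exact hθ.2 ⟨not_le.1 h, hθ.1.2⟩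
      exact Real.sin_nonpos_of_nonpos_of_neg_pi_le h1 hθ.1.1.le
  calc ∫ p : ℝ × E (k + 1), g (p.1 / √(p.1 ^ 2 + ‖p.2‖ ^ 2)) *
          ((p.1 ^ 2 + ‖p.2‖ ^ 2) * wt (√(p.1 ^ 2 + ‖p.2‖ ^ 2)))
      = ∫ p : ℝ × E (k + 1), F p.1 ‖p.2‖ := rfl
    _ = _ := by rw [step1, step2, step3]; ring

end Nec

end Pool.Agent.Helper62.Mink
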