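import Pool.Agent.Helper62.Mink.Basic

/-!
# Module M7 for MP_ae3a4d_gt: Schneider smoothing of sublinear functions
-/

namespace Pool.Agent.Helper62.Mink

open MeasureTheory Metric Set
open scoped RealInnerProductSpace ContDiff NNReal Convolution

namespace Smooth

variable {n : ℕ}

lemma two_point {h : E n → ℝ} (hh : Sublinear h) (c z : E n) {ρ R : ℝ} (hρ : 0 ≤ ρ) (hR : ρ ≤ R) :
    h (c - ρ • z) + h (c + ρ • z) ≤ h (c - R • z) + h (c + R • z) := by
  rcases (hρ.trans hR).eq_or_lt with h0 | hR0
  · have : ρ = 0 := le_antisymm (by rw [h0]; exact hR) hρ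
    subst this
    rw [← h0]
  · set l : ℝ := (R + ρ) / (2 * R) with hl
    set m : ℝ := (R - ρ) / (2 * R) with hm
    have hl0 : 0 ≤ l := by positivity
    have hm0 : 0 ≤ m := div_nonneg (by linarith) (by linarith)
    have hlm : l + m = 1 := by rw [hl, hm]; field_simp; ring
    have hlm' : (l - m) * R = ρ := by rw [hl, hm]; field_simp; ring
    have e1 : c - ρ • z = l • (c - R • z) + m • (c + R • z) := by
      have : l • (c - R • z) + m • (c + R • z) = (l + m) • c - ((l - m) * R) • z := by module
      rw [this, hlm, hlm', one_smul]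
    have e2 : c + ρ • z = m • (c - R • z) + l • (c + R • z) := by
      have : m • (c - R • z) + l • (c + R • z) = (l + m) • c + ((l - m) * R) • z := by module
      rw [this, hlm, hlm', one_smul]
    have i1 : h (c - ρ • z) ≤ l * h (c - R • z) + m * h (c + R • z) := by
      rw [e1, ← hh.pos_hom l hl0, ← hh.pos_hom m hm0]
      exact hh.add_le _ _
    have i2 : h (c + ρ • z) ≤ m * h (c - R • z) + l * h (c + R • z) := by
      rw [e2, ← hh.pos_hom l hl0, ← hh.pos_hom m hm0]
      exact hh.add_le _ _
    have : l * h (c - R • z) + m * h (c + R • z) + (m * h (c - R • z) + l * h (c + R • z))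
        = (l + m) * (h (c - R • z) + h (c + R • z)) := by ring
    rw [hlm, one_mul] at this
    linarith

end Smooth

open Smooth in
theorem exists_smooth {n : ℕ} {h : E n → ℝ} (hh : Sublinear h) {ε : ℝ} (hε : 0 < ε) :
    ∃ h' : E n → ℝ, Sublinear h' ∧ ContDiffOn ℝ ∞ h' {0}ᶜ ∧ ∀ x, |h' x - h x| ≤ ε * ‖x‖ := by
  obtain ⟨C, hC⟩ := hh.exists_lipschitz
  have hcont := hC.continuous
  set r : ℝ := ε / (C + 1) with hr
  have hr0 : 0 < r := by positivity
  have hCr : C * r ≤ ε := by
    rw [hr, mul_div_assoc']
    rw [div_le_iff₀ (by positivity)]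
    nlinarith [C.2, hε]
  let b : ContDiffBump (0 : E n) := ⟨r / 2, r, by positivity, by linarith⟩
  set φ : E n → ℝ := b.normed volume with hφ
  have φ_cont : Continuous φ := b.continuous_normed
  have φ_supp : HasCompactSupport φ := b.hasCompactSupport_normed
  have φ_nn : ∀ z, 0 ≤ φ z := fun z => b.nonneg_normed z
  have φ_int : ∫ z, φ z = 1 := b.integral_normed
  have φ_neg : ∀ z, φ (-z) = φ z := fun z => b.normed_neg z
  have φ_zero : ∀ z, r ≤ ‖z‖ → φ z = 0 := by
    intro z hz
    have : z ∉ Function.support φ := by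
      rw [hφ, b.support_normed_eq]
      simpa using hz
    simpa using this
  -- the smoothed function
  let H : E n → ℝ := fun x => ∫ z, φ z * h (x - ‖x‖ • z)
  have hint : ∀ (c : E n) (R : ℝ), Integrable (fun z => φ z * h (c - R • z)) := by
    intro c R
    refine Continuous.integrable_of_hasCompactSupport ?_ ?_
    · exact φ_cont.mul (hcont.comp (by fun_prop))
    · exact φ_supp.mul_right
  have hint' : ∀ (c : E n) (R : ℝ), Integrable (fun z => φ z * h (c + R • z)) := by
    intro c R
    refine Continuous.integrable_of_hasCompactSupport ?_ ?_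
    · exact φ_cont.mul (hcont.comp (by fun_prop))
    · exact φ_supp.mul_right
  have hsym : ∀ (c : E n) (R : ℝ), ∫ z, φ z * h (c + R • z) = ∫ z, φ z * h (c - R • z) := by
    intro c R
    rw [← integral_neg_eq_self]
    refine integral_congr_ae (Filter.Eventually.of_forall fun z => ?_)
    simp only [φ_neg, smul_neg]
    rw [sub_eq_add_neg]
  have hmono : ∀ (c : E n) (ρ R : ℝ), 0 ≤ ρ → ρ ≤ R →
      ∫ z, φ z * h (c - ρ • z) ≤ ∫ z, φ z * h (c - R • z) := by
    intro c ρ R h1 h2
    have key : (∫ z, φ z * h (c - ρ • z)) + (∫ z, φ z * h (c + ρ • z))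
        ≤ (∫ z, φ z * h (c - R • z)) + (∫ z, φ z * h (c + R • z)) := by
      rw [← integral_add (hint c ρ) (hint' c ρ), ← integral_add (hint c R) (hint' c R)]
      refine integral_mono ((hint c ρ).add (hint' c ρ)) ((hint c R).add (hint' c R)) fun z => ?_
      have := mul_le_mul_of_nonneg_left (two_point hh c z h1 h2) (φ_nn z)
      simp only
      linarith
    rw [hsym, hsym] at key
    linarith
  refine ⟨H, ⟨?_, ?_⟩, ?_, ?_⟩
  · intro c hc x
    simp only [H]
    rw [← integral_const_mul]
    refine integral_congr_ae (Filter.Eventually.of_forall fun z => ?_)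
    simp only
    have : c • x - ‖c • x‖ • z = c • (x - ‖x‖ • z) := by
      rw [norm_smul, Real.norm_of_nonneg hc, smul_sub, smul_smul]
    rw [this, hh.pos_hom c hc]
    ring
  · intro x y
    simp only [H]
    calc ∫ z, φ z * h (x + y - ‖x + y‖ • z)
        ≤ ∫ z, φ z * h (x + y - (‖x‖ + ‖y‖) • z) :=
          hmono _ _ _ (norm_nonneg _) (norm_add_le x y)
      _ ≤ ∫ z, (φ z * h (x - ‖x‖ • z) + φ z * h (y - ‖y‖ • z)) := by
          refine integral_mono (hint _ _) ((hint _ _).add (hint _ _)) fun z => ?_
          have e : x + y - (‖x‖ + ‖y‖) • z = (x - ‖x‖ • z) + (y - ‖y‖ • z) := by module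
          simp only
          rw [e, ← mul_add]
          exact mul_le_mul_of_nonneg_left (hh.add_le _ _) (φ_nn z)
      _ = _ := integral_add (hint _ _) (hint _ _)
  · -- smoothness
    have hconv : ∀ x : E n, x ≠ 0 → H x
        = ‖x‖ * (convolution φ h (ContinuousLinearMap.lsmul ℝ ℝ) volume) (‖x‖⁻¹ • x) := by
      intro x hx
      have hx' : 0 < ‖x‖ := norm_pos_iff.mpr hx
      simp only [H, convolution_def, ContinuousLinearMap.lsmul_apply, smul_eq_mul]
      rw [← integral_const_mul]
      refine integral_congr_ae (Filter.Eventually.of_forall fun z => ?_)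
      simp only
      have : x - ‖x‖ • z = ‖x‖ • (‖x‖⁻¹ • x - z) := by
        rw [smul_sub, smul_smul, mul_inv_cancel₀ hx'.ne', one_smul]
      rw [this, hh.pos_hom _ hx'.le]
      ring
    have hsm : ContDiff ℝ ∞ (convolution φ h (ContinuousLinearMap.lsmul ℝ ℝ) volume) := by
      refine HasCompactSupport.contDiff_convolution_left _ φ_supp b.contDiff_normed ?_
      exact hcont.locallyIntegrable
    have h1 : ContDiffOn ℝ ∞ (fun x : E n => ‖x‖) {0}ᶜ := fun x hx =>
      (contDiffAt_norm ℝ (by simpa using hx)).contDiffWithinAt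
    refine ContDiffOn.congr (f := fun x => ‖x‖ *
      (convolution φ h (ContinuousLinearMap.lsmul ℝ ℝ) volume) (‖x‖⁻¹ • x)) ?_
      (fun x hx => hconv x (by simpa using hx))
    refine h1.mul (hsm.comp_contDiffOn ?_)
    refine ContDiffOn.smul (h1.inv ?_) contDiffOn_id
    intro x hx
    simpa using hx
  · intro x
    have e : H x - h x = ∫ z, φ z * (h (x - ‖x‖ • z) - h x) := by
      have : h x = ∫ z, φ z * h x := by rw [integral_mul_const, φ_int, one_mul]
      simp only [H]
      conv_lhs => rw [this]
      rw [← integral_sub (hint _ _) (b.integrable_normed.mul_const _)]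
      refine integral_congr_ae (Filter.Eventually.of_forall fun z => ?_)
      simp only
      ring
    rw [e]
    calc |∫ z, φ z * (h (x - ‖x‖ • z) - h x)|
        ≤ ∫ z, |φ z * (h (x - ‖x‖ • z) - h x)| := abs_integral_le_integral_abs
      _ ≤ ∫ z, φ z * (ε * ‖x‖) := by
          refine integral_mono_of_nonneg (Filter.Eventually.of_forall fun z => abs_nonneg _)
            (b.integrable_normed.mul_const _) (Filter.Eventually.of_forall fun z => ?_)
          simp only
          rw [abs_mul, abs_of_nonneg (φ_nn z)]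
          by_cases hz : r ≤ ‖z‖
          · rw [φ_zero z hz]; simp
          · push Not at hz
            refine mul_le_mul_of_nonneg_left ?_ (φ_nn z)
            have h3 := hC.dist_le_mul (x - ‖x‖ • z) x
            rw [Real.dist_eq, dist_eq_norm] at h3
            have h4 : ‖x - ‖x‖ • z - x‖ = ‖x‖ * ‖z‖ := by
              rw [sub_sub_cancel_left, norm_neg, norm_smul, norm_norm]
            rw [h4] at h3
            calc |h (x - ‖x‖ • z) - h x| ≤ C * (‖x‖ * ‖z‖) := h3
              _ ≤ C * (‖x‖ * r) := by gcongr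
              _ = C * r * ‖x‖ := by ring
              _ ≤ ε * ‖x‖ := by gcongr
      _ = ε * ‖x‖ := by rw [integral_mul_const, φ_int, one_mul]

end Pool.Agent.Helper62.Mink
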