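import Pool.Agent.Helper15.Mink.NecA
import Pool.Agent.Helper15.Mink.Smooth

/-!
# Module M3 for MP_ae3a4d_gt, part B: from smooth bodies to segments
-/

namespace Pool.Agent.Helper62.Mink

open MeasureTheory Metric Set
open scoped RealInnerProductSpace ContDiff NNReal

namespace Nec

/-- extension of `f` from `[-1,1]` to the line. -/
noncomputable def ext (f : ℝ → ℝ) (x : ℝ) : ℝ := f (max (-1) (min 1 x))

lemma clamp_mem (x : ℝ) : max (-1 : ℝ) (min 1 x) ∈ Icc (-1 : ℝ) 1 :=
  ⟨le_max_left _ _, max_le (by norm_num) (min_le_left _ _)⟩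

lemma clamp_eq {x : ℝ} (hx : x ∈ Icc (-1 : ℝ) 1) : max (-1 : ℝ) (min 1 x) = x := by
  rw [min_eq_right hx.2, max_eq_right hx.1]

lemma ext_cont {f : ℝ → ℝ} (hf : ContinuousOn f (Icc (-1) 1)) : Continuous (ext f) :=
  hf.comp_continuous (by fun_prop) clamp_mem

lemma ext_eq {f : ℝ → ℝ} {x : ℝ} (hx : x ∈ Icc (-1 : ℝ) 1) : ext f x = f x := by
  rw [ext, clamp_eq hx]

lemma ext_bdd {f : ℝ → ℝ} (hf : ContinuousOn f (Icc (-1) 1)) : ∃ M, ∀ x, |ext f x| ≤ M := by
  obtain ⟨M, hM⟩ := isCompact_Icc.exists_bound_of_continuousOn hf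
  exact ⟨M, fun x => hM _ (clamp_mem x)⟩

lemma conv_ext {n : ℕ} (h : E n → ℝ) (f : ℝ → ℝ) (u : E n) : conv h f u = conv h (ext f) u := by
  unfold conv
  refine integral_congr_ae (Filter.Eventually.of_forall fun w => ?_)
  simp only
  by_cases hu : ‖u‖ = 0
  · rw [hu]; simp
  · have hu' : 0 < ‖u‖ := lt_of_le_of_ne (norm_nonneg _) (Ne.symm hu)
    have h1 : ‖(w : E n)‖ = 1 := by simp
    have h2 : |(inner ℝ u (w : E n) : ℝ)| ≤ ‖u‖ := by
      have := abs_real_inner_le_norm u (w : E n)
      rwa [h1, mul_one] at this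
    rw [ext_eq]
    rw [mem_Icc, ← abs_le, abs_div, abs_of_pos hu', div_le_one hu']
    exact h2

lemma conv_integrable {n : ℕ} {h : E n → ℝ} (hh : Continuous h) {f : ℝ → ℝ} (hf : Continuous f)
    (u : E n) : Integrable (fun w : sphere (0 : E n) 1 =>
      h w * (‖u‖ * f (inner ℝ u (w : E n) / ‖u‖))) (volume : Measure (E n)).toSphere := by
  refine Continuous.integrable_of_hasCompactSupport ?_ (HasCompactSupport.of_compactSpace _)
  fun_prop

/-- subadditivity for all sublinear functions. -/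
lemma conv_add_le_all {n : ℕ} {f : ℝ → ℝ} (hf : ContinuousOn f (Icc (-1) 1))
    (H : ∀ h : E n → ℝ, Sublinear h → ContDiffOn ℝ ∞ h {0}ᶜ →
      ∀ x y, conv h f (x + y) ≤ conv h f x + conv h f y)
    {h : E n → ℝ} (hh : Sublinear h) (x y : E n) :
    conv h (ext f) (x + y) ≤ conv h (ext f) x + conv h (ext f) y := by
  obtain ⟨M, hM⟩ := ext_bdd hf
  have hM0 : 0 ≤ M := (abs_nonneg _).trans (hM 0)
  have hfc := ext_cont hf
  set σ : Measure (sphere (0 : E n) 1) := (volume : Measure (E n)).toSphere with hσ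
  set V : ℝ := σ.real univ with hV
  have key : ∀ ε : ℝ, 0 < ε → ∀ h' : E n → ℝ, Continuous h' → (∀ x, |h' x - h x| ≤ ε * ‖x‖) →
      ∀ u : E n, |conv h' (ext f) u - conv h (ext f) u| ≤ ε * (M * ‖u‖ * V) := by
    intro ε hε h' hc hb u
    unfold conv
    rw [← integral_sub (conv_integrable hc hfc u) (conv_integrable hh.continuous hfc u)]
    have : ε * (M * ‖u‖ * V) = (ε * (M * ‖u‖)) * σ.real univ := by rw [hV]; ring
    rw [this, ← Real.norm_eq_abs]
    refine norm_integral_le_of_norm_le_const (Filter.Eventually.of_forall fun w => ?_)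
    have h1 : ‖(w : E n)‖ = 1 := by simp
    have h2 := hb (w : E n)
    rw [h1, mul_one] at h2
    rw [← sub_mul, Real.norm_eq_abs, abs_mul]
    refine mul_le_mul h2 ?_ (abs_nonneg _) hε.le
    rw [abs_mul, abs_of_nonneg (norm_nonneg u), mul_comm]
    exact mul_le_mul_of_nonneg_right (hM _) (norm_nonneg _)
  refine le_of_forall_pos_le_add fun δ hδ => ?_
  set D : ℝ := M * ‖x + y‖ * V + M * ‖x‖ * V + M * ‖y‖ * V with hD
  have hV0 : 0 ≤ V := measureReal_nonneg
  have hD0 : 0 ≤ D := by positivity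
  set ε : ℝ := δ / (D + 1) with hε
  have hε0 : 0 < ε := by positivity
  have hεD : ε * D ≤ δ := by
    rw [hε, div_mul_eq_mul_div, div_le_iff₀ (by positivity)]
    nlinarith
  obtain ⟨h', hs, hsm, hb⟩ := exists_smooth hh hε0
  have H1 := H h' hs hsm x y
  simp only [conv_ext h' f] at H1
  have k1 := abs_le.1 (key ε hε0 h' hs.continuous hb (x + y))
  have k2 := abs_le.1 (key ε hε0 h' hs.continuous hb x)
  have k3 := abs_le.1 (key ε hε0 h' hs.continuous hb y)
  have : ε * D = ε * (M * ‖x + y‖ * V) + ε * (M * ‖x‖ * V) + ε * (M * ‖y‖ * V) := by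
    rw [hD]; ring
  linarith [k1.1, k2.2, k3.2]

/-- moving the pole by an isometry. -/
lemma conv_isometry {n : ℕ} (R : E n ≃ₗᵢ[ℝ] E n) (a u : E n) (hu : ‖u‖ = 1) {N : ℝ} (hN : 0 < N)
    (f : ℝ → ℝ) :
    conv (fun x => |(inner ℝ a x : ℝ)|) f (N • R u)
      = ∫ w : sphere (0 : E n) 1, |(inner ℝ (N • R.symm a) (w : E n) : ℝ)| * f (inner ℝ u (w : E n))
        ∂(volume : Measure (E n)).toSphere := by
  have hn : ‖N • R u‖ = N := by
    rw [norm_smul, R.norm_map, hu, mul_one, Real.norm_eq_abs, abs_of_pos hN]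
  unfold conv
  rw [hn]
  rw [← sphere_integral_comp R (fun x => |(inner ℝ a x : ℝ)| * (N * f (inner ℝ (N • R u) x / N)))]
  refine integral_congr_ae (Filter.Eventually.of_forall fun w => ?_)
  simp only
  have e1 : (inner ℝ (N • R u) (R (w : E n)) : ℝ) / N = inner ℝ u (w : E n) := by
    rw [real_inner_smul_left, R.inner_map_map, mul_div_cancel_left₀ _ hN.ne']
  have e2 : (inner ℝ (N • R.symm a) (w : E n) : ℝ) = N * inner ℝ a (R (w : E n)) := by
    rw [real_inner_smul_left]
    congr 1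
    have := R.inner_map_map (R.symm a) (w : E n)
    rw [R.apply_symm_apply] at this
    exact this.symm
  rw [e1, e2, abs_mul, abs_of_pos hN]
  ring

lemma exists_refl {n : ℕ} {u v : E n} (hu : ‖u‖ = 1) (hv : ‖v‖ = 1) (huv : (inner ℝ u v : ℝ) = 0)
    (τ : ℝ) : ∃ R : E n ≃ₗᵢ[ℝ] E n, R.symm = R ∧ √(1 + τ ^ 2) • R u = u + τ • v ∧
      √(1 + τ ^ 2) • R v = τ • u - v := by
  set N : ℝ := √(1 + τ ^ 2) with hN
  have hN0 : 0 < N := Real.sqrt_pos.2 (by positivity)
  have hN2 : N * N = 1 + τ ^ 2 := Real.mul_self_sqrt (by positivity)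
  rcases eq_or_ne τ 0 with rfl | hτ
  · refine ⟨(ℝ ∙ v)ᗮ.reflection, Submodule.reflection_symm, ?_, ?_⟩
    · have hN1 : N = 1 := by rw [hN]; simp
      rw [hN1, one_smul, zero_smul, add_zero]
      apply Submodule.reflection_mem_subspace_eq_self
      rw [Submodule.mem_orthogonal_singleton_iff_inner_left]
      exact huv
    · have hN1 : N = 1 := by rw [hN]; simp
      rw [hN1, one_smul, zero_smul, zero_sub]
      exact Submodule.reflection_orthogonalComplement_singleton_eq_neg v
  · set p : E n := u + τ • v with hp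
    have hpn : ‖p‖ = N := by
      rw [← Real.sqrt_sq (norm_nonneg p), hN]
      congr 1
      rw [hp, norm_add_sq_real, norm_smul, hu, hv, real_inner_smul_right, huv]
      simp
    set q : E n := N⁻¹ • p with hq
    have hqn : ‖u‖ = ‖q‖ := by
      rw [hq, norm_smul, hpn, hu, norm_inv, Real.norm_eq_abs, abs_of_pos hN0,
        inv_mul_cancel₀ hN0.ne']
    have h1 : (ℝ ∙ (u - q))ᗮ.reflection u = q := Submodule.reflection_sub hqn
    have h2 : (ℝ ∙ (u - q))ᗮ.reflection q = u := by
      have h := Submodule.reflection_reflection (ℝ ∙ (u - q))ᗮ u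
      rw [h1] at h
      exact h
    set R := (ℝ ∙ (u - q))ᗮ.reflection with hR
    have hNq : N • q = p := by rw [hq, smul_smul, mul_inv_cancel₀ hN0.ne', one_smul]
    have h3 : R p = N • u := by rw [← hNq, map_smul, h2]
    have h4 : N • R u = p := by rw [h1, hNq]
    have h5 : τ • R v = R p - R u := by
      rw [← map_smul, ← map_sub, hp]
      congr 1; module
    refine ⟨R, Submodule.reflection_symm, h4, ?_⟩
    have h6 : τ • (N • R v) = τ • (τ • u - v) := by
      calc τ • (N • R v) = N • (τ • R v) := by module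
        _ = N • (N • u) - N • R u := by rw [h5, h3]; module
        _ = (N * N) • u - p := by rw [h4]; module
        _ = τ • (τ • u - v) := by rw [hN2, hp]; module
    exact smul_right_injective _ hτ h6

lemma conv_line {n : ℕ} {u v : E n} (hu : ‖u‖ = 1) (hv : ‖v‖ = 1) (huv : (inner ℝ u v : ℝ) = 0)
    (c r τ : ℝ) (f : ℝ → ℝ) :
    conv (fun x => |(inner ℝ (c • u + r • v) x : ℝ)|) f (u + τ • v)
      = ∫ w : sphere (0 : E n) 1,
          |(inner ℝ ((c • u - r • v) + τ • (r • u + c • v)) (w : E n) : ℝ)|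
            * f (inner ℝ u (w : E n)) ∂(volume : Measure (E n)).toSphere := by
  obtain ⟨R, hR, h1, h2⟩ := exists_refl hu hv huv τ
  have hN0 : 0 < √(1 + τ ^ 2) := Real.sqrt_pos.2 (by positivity)
  rw [← h1, conv_isometry R _ u hu hN0 f, hR]
  have : √(1 + τ ^ 2) • R (c • u + r • v) = (c • u - r • v) + τ • (r • u + c • v) := by
    rw [map_add, map_smul, map_smul]
    calc √(1 + τ ^ 2) • (c • R u + r • R v)
        = c • (√(1 + τ ^ 2) • R u) + r • (√(1 + τ ^ 2) • R v) := by module
      _ = _ := by rw [h1, h2]; module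
  rw [this]

/-- the second difference as an integral over the sphere. -/
lemma sphere_ineq {k : ℕ} {f : ℝ → ℝ} (hf : ContinuousOn f (Icc (-1) 1))
    (H : ∀ h : E (k + 3) → ℝ, Sublinear h → ContDiffOn ℝ ∞ h {0}ᶜ →
      ∀ x y, conv h f (x + y) ≤ conv h f x + conv h f y)
    {c r : ℝ} (hcr : c ^ 2 + r ^ 2 = 1) (τ : ℝ) :
    0 ≤ ∫ w : sphere (0 : E (k + 3)) 1,
      (|(w : E (k + 3)) 0 + τ * (w : E (k + 3)) 1| + |(w : E (k + 3)) 0 - τ * (w : E (k + 3)) 1|
        - 2 * |(w : E (k + 3)) 0|) * ext f (c * (w : E (k + 3)) 0 + r * (w : E (k + 3)) 1)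
        ∂(volume : Measure (E (k + 3))).toSphere := by
  have hfc := ext_cont hf
  set e0 : E (k + 3) := EuclideanSpace.single 0 1 with he0
  set e1 : E (k + 3) := EuclideanSpace.single 1 1 with he1
  have n0 : ‖e0‖ = 1 := by simp [he0]
  have n1 : ‖e1‖ = 1 := by simp [he1]
  have i01 : (inner ℝ e0 e1 : ℝ) = 0 := by
    simp [he0, he1, EuclideanSpace.inner_single_left]
  have i10 : (inner ℝ e1 e0 : ℝ) = 0 := by rw [real_inner_comm]; exact i01
  have i00 : (inner ℝ e0 e0 : ℝ) = 1 := by rw [real_inner_self_eq_norm_sq, n0]; norm_num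
  have i11 : (inner ℝ e1 e1 : ℝ) = 1 := by rw [real_inner_self_eq_norm_sq, n1]; norm_num
  have iw0 : ∀ w : E (k + 3), (inner ℝ e0 w : ℝ) = w 0 := by
    intro w; simp [he0, EuclideanSpace.inner_single_left]
  have iw1 : ∀ w : E (k + 3), (inner ℝ e1 w : ℝ) = w 1 := by
    intro w; simp [he1, EuclideanSpace.inner_single_left]
  set u : E (k + 3) := c • e0 + r • e1 with hu
  set v : E (k + 3) := (-r) • e0 + c • e1 with hv
  have nu : ‖u‖ = 1 := by
    have : ‖u‖ ^ 2 = 1 := by
      rw [← real_inner_self_eq_norm_sq, hu]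
      simp only [inner_add_left, inner_add_right, real_inner_smul_left, real_inner_smul_right,
        i00, i01, i10, i11]
      linarith
    nlinarith [norm_nonneg u]
  have nv : ‖v‖ = 1 := by
    have : ‖v‖ ^ 2 = 1 := by
      rw [← real_inner_self_eq_norm_sq, hv]
      simp only [inner_add_left, inner_add_right, real_inner_smul_left, real_inner_smul_right,
        i00, i01, i10, i11]
      linarith
    nlinarith [norm_nonneg v]
  have iuv : (inner ℝ u v : ℝ) = 0 := by
    rw [hu, hv]
    simp only [inner_add_left, inner_add_right, real_inner_smul_left, real_inner_smul_right,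
      i00, i01, i10, i11]
    ring
  have h0 : c • u - r • v = e0 := by
    have : c • u - r • v = (c ^ 2 + r ^ 2) • e0 := by rw [hu, hv]; module
    rw [this, hcr, one_smul]
  have h1 : r • u + c • v = e1 := by
    have : r • u + c • v = (c ^ 2 + r ^ 2) • e1 := by rw [hu, hv]; module
    rw [this, hcr, one_smul]
  set a : E (k + 3) := c • u + r • v with ha
  have hsub : Sublinear (fun x => |(inner ℝ a x : ℝ)|) := by
    refine ⟨fun s hs x => ?_, fun x y => ?_⟩
    · simp only [real_inner_smul_right, abs_mul, abs_of_nonneg hs]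
    · simp only [inner_add_right]; exact abs_add_le _ _
  have line : ∀ s : ℝ, conv (fun x => |(inner ℝ a x : ℝ)|) (ext f) (u + s • v)
      = ∫ w : sphere (0 : E (k + 3)) 1, |(w : E (k + 3)) 0 + s * (w : E (k + 3)) 1|
            * ext f (c * (w : E (k + 3)) 0 + r * (w : E (k + 3)) 1)
            ∂(volume : Measure (E (k + 3))).toSphere := by
    intro s
    rw [ha, conv_line nu nv iuv c r s (ext f), h0, h1]
    refine integral_congr_ae (Filter.Eventually.of_forall fun w => ?_)
    simp only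
    rw [hu, inner_add_left, inner_add_left, real_inner_smul_left, real_inner_smul_left,
      real_inner_smul_left, iw0, iw1]
  have hI : ∀ s : ℝ, Integrable (fun w : sphere (0 : E (k + 3)) 1 =>
      |(w : E (k + 3)) 0 + s * (w : E (k + 3)) 1|
            * ext f (c * (w : E (k + 3)) 0 + r * (w : E (k + 3)) 1))
            (volume : Measure (E (k + 3))).toSphere := by
    intro s
    refine Continuous.integrable_of_hasCompactSupport ?_ (HasCompactSupport.of_compactSpace _)
    fun_prop
  have G := conv_add_le_all hf H hsub (u + τ • v) (u + (-τ) • v)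
  have e2 : (u + τ • v) + (u + (-τ) • v) = (2 : ℝ) • (u + (0 : ℝ) • v) := by module
  rw [e2, conv_smul _ _ zero_le_two, line, line, line] at G
  have hI2 : Integrable (fun w : sphere (0 : E (k + 3)) 1 =>
      |(w : E (k + 3)) 0 + τ * (w : E (k + 3)) 1|
            * ext f (c * (w : E (k + 3)) 0 + r * (w : E (k + 3)) 1)
      + |(w : E (k + 3)) 0 + (-τ) * (w : E (k + 3)) 1|
            * ext f (c * (w : E (k + 3)) 0 + r * (w : E (k + 3)) 1))
            (volume : Measure (E (k + 3))).toSphere := (hI τ).add (hI (-τ))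
  have e3 : ∫ w : sphere (0 : E (k + 3)) 1,
      (|(w : E (k + 3)) 0 + τ * (w : E (k + 3)) 1| + |(w : E (k + 3)) 0 - τ * (w : E (k + 3)) 1|
        - 2 * |(w : E (k + 3)) 0|) * ext f (c * (w : E (k + 3)) 0 + r * (w : E (k + 3)) 1)
        ∂(volume : Measure (E (k + 3))).toSphere
      = (∫ w : sphere (0 : E (k + 3)) 1, |(w : E (k + 3)) 0 + τ * (w : E (k + 3)) 1|
            * ext f (c * (w : E (k + 3)) 0 + r * (w : E (k + 3)) 1)
            ∂(volume : Measure (E (k + 3))).toSphere)
        + (∫ w : sphere (0 : E (k + 3)) 1, |(w : E (k + 3)) 0 + (-τ) * (w : E (k + 3)) 1|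
            * ext f (c * (w : E (k + 3)) 0 + r * (w : E (k + 3)) 1)
            ∂(volume : Measure (E (k + 3))).toSphere)
        - 2 * (∫ w : sphere (0 : E (k + 3)) 1, |(w : E (k + 3)) 0 + 0 * (w : E (k + 3)) 1|
            * ext f (c * (w : E (k + 3)) 0 + r * (w : E (k + 3)) 1)
            ∂(volume : Measure (E (k + 3))).toSphere) := by
    rw [← integral_const_mul, ← integral_add (hI τ) (hI (-τ)),
      ← integral_sub hI2 ((hI 0).const_mul 2)]
    refine integral_congr_ae (Filter.Eventually.of_forall fun w => ?_)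
    simp only [neg_mul, ← sub_eq_add_neg, zero_mul, add_zero]
    ring
  rw [e3]
  linarith

end Nec

end Pool.Agent.Helper62.Mink
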